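import Mathlib

set_option autoImplicit false

set_option linter.unusedSectionVars false

open MeasureTheory Set Filter Topology
open scoped symmDiff

namespace Pool.Agent.Results.MP_955413_lc.UniformConvergence

universe u v

/-- The Stone space of the Boolean algebra `A`: the homomorphisms from `A` to `{0, 1}`, as a subspace
of the product space `{0, 1} ^ A`. -/
def stone (A : Type u) [BooleanAlgebra A] : Set (A → Bool) :=
  {x | (∀ a b, x (a ⊓ b) = (x a && x b)) ∧ ∀ a, x aᶜ = !x a}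

section stone

variable {A : Type u} [BooleanAlgebra A]

theorem isClosed_stone : IsClosed (stone A) := by
  have h : stone A = (⋂ (a : A) (b : A), {x : A → Bool | x (a ⊓ b) = (x a && x b)}) ∩
      ⋂ a : A, {x : A → Bool | x aᶜ = !x a} := by
    ext x
    simp only [stone, mem_ofPred_eq, mem_inter_iff, mem_iInter]
  rw [h]
  refine IsClosed.inter ?_ ?_
  · refine isClosed_iInter fun a => isClosed_iInter fun b =>
      isClosed_eq (continuous_apply (a ⊓ b)) ?_
    have h1 : Continuous fun p : Bool × Bool => (p.1 && p.2) := continuous_of_discreteTopology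
    have h2 : Continuous fun x : A → Bool => (x a, x b) :=
      (continuous_apply a).prodMk (continuous_apply b)
    exact h1.comp h2
  · refine isClosed_iInter fun a => isClosed_eq (continuous_apply aᶜ) ?_
    have h1 : Continuous fun b : Bool => !b := continuous_of_discreteTopology
    exact h1.comp (continuous_apply a)

instance : CompactSpace (stone A) := isCompact_iff_compactSpace.1 isClosed_stone.isCompact

end stone

/-- Every weak* convergent sequence of functionals with the property `P` in the dual of `X`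
converges weakly. -/
def WeakStarWeak (X : Type u) [NormedAddCommGroup X] [NormedSpace ℝ X]
    (P : StrongDual ℝ X → Prop) : Prop :=
  ∀ (f : ℕ → StrongDual ℝ X) (g : StrongDual ℝ X),
    (∀ n, P (f n)) → (∀ x, Tendsto (fun n => f n x) atTop (𝓝 (g x))) →
    ∀ Φ : StrongDual ℝ (StrongDual ℝ X), Tendsto (fun n => Φ (f n)) atTop (𝓝 (Φ g))

/-- The Boolean algebra `A` has the Grothendieck property: every weak* convergent sequence in the
dual of `C(St(A))` converges weakly. -/
def Grothendieck (A : Type u) [BooleanAlgebra A] : Prop :=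
  WeakStarWeak C(stone A, ℝ) fun _ => True

/-- The functional `l` is positive (a nonnegative measure). -/
def Positive {A : Type u} [BooleanAlgebra A] (l : StrongDual ℝ C(stone A, ℝ)) : Prop :=
  ∀ x, 0 ≤ x → 0 ≤ l x

/-- The positive Grothendieck property: the same for sequences of positive functionals
(nonnegative measures). -/
def PosGrothendieck (A : Type u) [BooleanAlgebra A] : Prop :=
  WeakStarWeak C(stone A, ℝ) Positive

section hom

variable {A : Type u} [BooleanAlgebra A] {Ω : Type v} [MeasurableSpace Ω]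

/-- `φ` gives a Boolean homomorphism from `A` to the measure algebra of `μ` (measurable sets modulo
null sets): `φ a` is a measurable set that represents the image of `a`. -/
structure IsHom (μ : Measure Ω) (φ : A → Set Ω) : Prop where
  meas : ∀ a, MeasurableSet (φ a)
  inf : ∀ a b, φ (a ⊓ b) =ᵐ[μ] (φ a ∩ φ b : Set Ω)
  compl : ∀ a, φ aᶜ =ᵐ[μ] ((φ a)ᶜ : Set Ω)

/-- `φ n` converges pointwise algebraically to `ψ`: for every `a` both `⋁_n ⋀_{m > n} φ m a` and
`⋀_n ⋁_{m > n} φ m a` are equal to `ψ a` in the measure algebra. -/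
def AlgConv (μ : Measure Ω) (φ : ℕ → A → Set Ω) (ψ : A → Set Ω) : Prop :=
  ∀ a, (⋃ n, ⋂ m > n, φ m a) =ᵐ[μ] ψ a ∧ (⋂ n, ⋃ m > n, φ m a) =ᵐ[μ] ψ a

/-- `φ n` converges uniformly to `ψ`: the supremum over all `a` of the measure of the symmetric
difference of `φ n a` and `ψ a` tends to `0`. -/
def UnifConv (μ : Measure Ω) (φ : ℕ → A → Set Ω) (ψ : A → Set Ω) : Prop :=
  ∀ ε : ℝ, 0 < ε → ∃ N, ∀ n ≥ N, ∀ a, μ.real (φ n a ∆ ψ a) ≤ ε

end hom

/-! ### Functionals on `C(St(A))` -/

section functional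

variable {A : Type u} [BooleanAlgebra A]

/-- Limits along ultrafilters of bounded families of functionals. -/
theorem exists_ultra {E : Type*} [NormedAddCommGroup E] [NormedSpace ℝ E] {ι : Type*}
    (U : Ultrafilter ι) (l : ι → StrongDual ℝ E) (C : ℝ) (h : ∀ i, ‖l i‖ ≤ C) :
    ∃ L : StrongDual ℝ E, ∀ x, Tendsto (fun i => l i x) U (𝓝 (L x)) := by
  have hc := WeakDual.isCompact_closedBall (𝕜 := ℝ) (E := E) 0 C
  set l' : ι → WeakDual ℝ E := fun i => StrongDual.toWeakDual (l i) with hl'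
  have hmem : ∀ i, l' i ∈ WeakDual.toStrongDual ⁻¹' Metric.closedBall (0 : StrongDual ℝ E) C := by
    intro i
    simp only [mem_preimage, Metric.mem_closedBall, dist_zero_right, hl']
    exact h i
  obtain ⟨L, _, hL⟩ := hc.ultrafilter_le_nhds (U.map l')
    (by rw [le_principal_iff]; exact Filter.mem_map.2 (Filter.Eventually.of_forall hmem))
  refine ⟨WeakDual.toStrongDual L, fun x => ?_⟩
  have h1 : Tendsto l' U (𝓝 L) := hL
  exact ((WeakDual.eval_continuous x).tendsto L).comp h1

/-- The characteristic function of the clopen set given by `a`. -/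
def ind (a : A) : C(stone A, ℝ) where
  toFun x := if x.1 a then 1 else 0
  continuous_toFun := by
    have h1 : Continuous fun b : Bool => if b then (1 : ℝ) else 0 :=
      continuous_of_discreteTopology
    exact h1.comp ((continuous_apply a).comp continuous_subtype_val)

theorem ind_apply (a : A) (x : stone A) : ind a x = if x.1 a then 1 else 0 := rfl

theorem ind_mul (a b : A) : ind a * ind b = ind (a ⊓ b) := by
  ext x
  simp only [ContinuousMap.mul_apply, ind_apply, x.2.1 a b]
  cases x.1 a <;> cases x.1 b <;> simp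

theorem stone_top (x : stone A) : x.1 ⊤ = true := by
  have h1 := x.2.2 ⊤
  have h2 := x.2.1 ⊤ ⊤ᶜ
  have h3 := x.2.1 ⊤ᶜ ⊤ᶜ
  rw [inf_compl_self, ← compl_top] at h2
  cases h : x.1 ⊤
  · rw [h] at h1 h2
    rw [h1] at h2
    simp at h2
  · rfl

theorem stone_mono (x : stone A) {a b : A} (hab : a ≤ b) (ha : x.1 a = true) : x.1 b = true := by
  have h := x.2.1 a b
  rw [inf_eq_left.2 hab, ha] at h
  simpa using h.symm

theorem ind_top : ind (⊤ : A) = 1 := by
  ext x
  rw [ind_apply, stone_top x]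
  rfl

theorem ind_nonneg (a : A) : 0 ≤ ind a := by
  intro x
  show (0 : ℝ) ≤ ind a x
  rw [ind_apply]
  split_ifs
  · exact zero_le_one
  · exact le_rfl

theorem norm_ind_le (a : A) : ‖ind a‖ ≤ 1 := by
  rw [ContinuousMap.norm_le _ zero_le_one]
  intro x
  rw [ind_apply]
  split_ifs <;> simp

/-- The span of the characteristic functions is a subalgebra. -/
def indAlg : Subalgebra ℝ C(stone A, ℝ) where
  carrier := Submodule.span ℝ (range (ind (A := A)))
  mul_mem' := by
    intro x y hx hy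
    refine Submodule.span_induction (p := fun x _ => x * y ∈ Submodule.span ℝ (range (ind (A := A))))
      ?_ ?_ ?_ ?_ hx
    · rintro _ ⟨a, rfl⟩
      refine Submodule.span_induction
        (p := fun y _ => ind a * y ∈ Submodule.span ℝ (range (ind (A := A)))) ?_ ?_ ?_ ?_ hy
      · rintro _ ⟨b, rfl⟩
        rw [ind_mul]
        exact Submodule.subset_span ⟨_, rfl⟩
      · rw [mul_zero]; exact Submodule.zero_mem _
      · intro y z _ _ h1 h2
        rw [mul_add]; exact Submodule.add_mem _ h1 h2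
      · intro c y _ h1
        rw [mul_smul_comm]; exact Submodule.smul_mem _ _ h1
    · rw [zero_mul]; exact Submodule.zero_mem _
    · intro y z _ _ h1 h2
      rw [add_mul]; exact Submodule.add_mem _ h1 h2
    · intro c y _ h1
      rw [smul_mul_assoc]; exact Submodule.smul_mem _ _ h1
  one_mem' := by
    rw [← ind_top]
    exact Submodule.subset_span ⟨_, rfl⟩
  add_mem' := fun hx hy => Submodule.add_mem _ hx hy
  zero_mem' := Submodule.zero_mem _
  algebraMap_mem' := by
    intro c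
    rw [Algebra.algebraMap_eq_smul_one, ← ind_top]
    exact Submodule.smul_mem _ _ (Submodule.subset_span ⟨_, rfl⟩)

theorem dense_ind (f : C(stone A, ℝ)) (ε : ℝ) (hε : 0 < ε) :
    ∃ g ∈ Submodule.span ℝ (range (ind (A := A))), ‖f - g‖ < ε := by
  have h1 : (indAlg (A := A)).topologicalClosure = ⊤ := by
    refine ContinuousMap.subalgebra_topologicalClosure_eq_top_of_separatesPoints _ ?_
    intro x y hxy
    have h2 : ∃ a, x.1 a ≠ y.1 a := by
      by_contra h
      push Not at h
      exact hxy (Subtype.ext (funext h))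
    obtain ⟨a, ha⟩ := h2
    refine ⟨ind a, ⟨ind a, Submodule.subset_span ⟨a, rfl⟩, rfl⟩, ?_⟩
    show ind a x ≠ ind a y
    rw [ind_apply, ind_apply]
    cases hx : x.1 a <;> cases hy : y.1 a <;> simp_all
  have h2 : f ∈ (indAlg (A := A)).topologicalClosure := by rw [h1]; trivial
  have h3 : f ∈ closure (indAlg (A := A) : Set C(stone A, ℝ)) := h2
  obtain ⟨g, hg, hfg⟩ := Metric.mem_closure_iff.1 h3 ε hε
  exact ⟨g, hg, by rwa [dist_eq_norm] at hfg⟩

/-- Bounded sequences of functionals that converge at the characteristic functions converge. -/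
theorem tendsto_of_ind (f : ℕ → StrongDual ℝ C(stone A, ℝ)) (g : StrongDual ℝ C(stone A, ℝ))
    (hf : ∀ n, ‖f n‖ ≤ 1) (hg : ‖g‖ ≤ 1)
    (h : ∀ a, Tendsto (fun n => f n (ind a)) atTop (𝓝 (g (ind a)))) (x : C(stone A, ℝ)) :
    Tendsto (fun n => f n x) atTop (𝓝 (g x)) := by
  have hspan : ∀ y ∈ Submodule.span ℝ (range (ind (A := A))),
      Tendsto (fun n => f n y) atTop (𝓝 (g y)) := by
    intro y hy
    induction hy using Submodule.span_induction with
    | mem y hy => obtain ⟨a, rfl⟩ := hy; exact h a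
    | zero => simp
    | add y z _ _ h1 h2 => simpa only [map_add] using h1.add h2
    | smul c y _ h1 => simpa only [map_smul] using h1.const_smul c
  rw [Metric.tendsto_atTop]
  intro ε hε
  obtain ⟨y, hy, hxy⟩ := dense_ind x (ε / 3) (by linarith)
  obtain ⟨N, hN⟩ := (Metric.tendsto_atTop.1 (hspan y hy)) (ε / 3) (by linarith)
  refine ⟨N, fun n hn => ?_⟩
  have h1 : ‖f n (x - y)‖ ≤ ‖x - y‖ := by
    refine ((f n).le_opNorm _).trans ?_
    have := hf n
    have h2 := norm_nonneg (x - y)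
    nlinarith
  have h2 : ‖g (x - y)‖ ≤ ‖x - y‖ := by
    refine (g.le_opNorm _).trans ?_
    have h2 := norm_nonneg (x - y)
    nlinarith
  have h3 := hN n hn
  rw [Real.dist_eq] at h3 ⊢
  rw [map_sub, Real.norm_eq_abs] at h1 h2
  have e : f n x - g x = (f n x - f n y) + (f n y - g y) - (g x - g y) := by ring
  rw [e]
  refine (abs_sub _ _).trans_lt ?_
  have h4 := abs_add_le (f n x - f n y) (f n y - g y)
  linarith

/-- Every nonzero element belongs to a point of the Stone space. -/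
theorem exists_point {a : A} (ha : a ≠ ⊥) : ∃ x : stone A, x.1 a = true := by
  classical
  have hd : Disjoint ((Order.PFilter.principal a : Order.PFilter A) : Set A)
      ((Order.Ideal.principal (⊥ : A) : Order.Ideal A) : Set A) := by
    rw [Set.disjoint_left]
    intro b hb hb'
    have h1 : a ≤ b := Order.PFilter.mem_principal.1 hb
    have h2 : b ≤ ⊥ := Order.Ideal.mem_principal.1 hb'
    exact ha (le_bot_iff.1 (h1.trans h2))
  obtain ⟨J, hJ, _, hJ2⟩ := DistribLattice.prime_ideal_of_disjoint_filter_ideal hd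
  have htop : (⊤ : A) ∉ J := fun h => hJ.toIsProper.ne_univ (by
    ext b
    simp only [mem_univ, iff_true]
    exact J.lower le_top h)
  refine ⟨⟨fun b => decide (b ∉ J), ?_, ?_⟩, ?_⟩
  · intro b c
    rw [← Bool.decide_and, decide_eq_decide]
    constructor
    · intro h
      exact ⟨fun h1 => h (J.lower inf_le_left h1), fun h1 => h (J.lower inf_le_right h1)⟩
    · rintro ⟨h1, h2⟩ h
      rcases hJ.mem_or_mem h with h3 | h3
      · exact h1 h3
      · exact h2 h3
  · intro b
    rw [← decide_not, decide_eq_decide]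
    constructor
    · intro h h1
      rcases hJ.mem_or_compl_mem (x := b) with h2 | h2
      · exact h1 h2
      · exact h h2
    · intro h h1
      refine htop ?_
      rw [← sup_compl_eq_top (x := b)]
      exact J.sup_mem (not_not.1 h) h1
  · rw [decide_eq_true_eq]
    intro h
    exact Set.disjoint_left.1 hJ2 (Order.PFilter.mem_principal.2 le_rfl) h

/-- The atoms of the finite subalgebra generated by `F`. -/
def atom [DecidableEq A] (F S : Finset A) : A := S.inf id ⊓ (F \ S).inf compl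

section additive

variable {m : A → ℝ} (h0 : ∀ a, 0 ≤ m a) (hadd : ∀ a b, a ⊓ b = ⊥ → m (a ⊔ b) = m a + m b)

include hadd in
theorem m_bot : m ⊥ = 0 := by
  have := hadd ⊥ ⊥ (inf_idem _)
  rw [sup_idem] at this
  linarith

include hadd in
theorem m_split (x b : A) : m (xᶜ ⊓ b) + m (x ⊓ b) = m b := by
  rw [← hadd]
  · congr 1
    rw [← inf_sup_right, compl_sup_eq_top, top_inf_eq]
  · rw [inf_inf_inf_comm, compl_inf_self, bot_inf_eq]

include hadd in
theorem sum_atom [DecidableEq A] (F : Finset A) : ∀ b, ∑ S ∈ F.powerset, m (atom F S ⊓ b) = m b := by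
  induction F using Finset.induction_on with
  | empty => intro b; simp [atom]
  | insert x F hx ih =>
    intro b
    rw [Finset.sum_powerset_insert hx]
    have e1 : ∑ t ∈ F.powerset, m (atom (insert x F) t ⊓ b) =
        ∑ t ∈ F.powerset, m (atom F t ⊓ (xᶜ ⊓ b)) := by
      refine Finset.sum_congr rfl fun t ht => ?_
      have hxt : x ∉ t := fun h => hx (Finset.mem_powerset.1 ht h)
      unfold atom
      rw [Finset.insert_sdiff_of_notMem _ hxt, Finset.inf_insert]
      congr 1
      ac_rfl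
    have e2 : ∑ t ∈ F.powerset, m (atom (insert x F) (insert x t) ⊓ b) =
        ∑ t ∈ F.powerset, m (atom F t ⊓ (x ⊓ b)) := by
      refine Finset.sum_congr rfl fun t ht => ?_
      unfold atom
      rw [Finset.insert_sdiff_insert, Finset.sdiff_insert_of_notMem hx, Finset.inf_insert]
      congr 1
      show x ⊓ t.inf id ⊓ (F \ t).inf compl ⊓ b = t.inf id ⊓ (F \ t).inf compl ⊓ (x ⊓ b)
      ac_rfl
    rw [e1, e2, ih, ih, m_split hadd]

include h0 hadd in
theorem exists_functional : ∃ L : StrongDual ℝ C(stone A, ℝ), (∀ a, L (ind a) = m a) ∧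
    (∀ x, 0 ≤ x → 0 ≤ L x) ∧ ‖L‖ ≤ m ⊤ := by
  classical
  by_cases htriv : (⊤ : A) = ⊥
  · refine ⟨0, fun a => ?_, fun x _ => le_rfl,
      ContinuousLinearMap.opNorm_le_bound _ (h0 _) fun x => ?_⟩
    swap
    · show ‖(0 : ℝ)‖ ≤ _
      rw [norm_zero]
      exact mul_nonneg (h0 _) (norm_nonneg _)
    have ha : a = ⊥ := le_bot_iff.1 (le_top.trans htriv.le)
    rw [ha, m_bot hadd]
    rfl
  obtain ⟨x0, _⟩ := exists_point htriv
  set pt : A → stone A := fun a => if h : a ≠ ⊥ then (exists_point h).choose else x0 with hpt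
  have hpt' : ∀ a, a ≠ ⊥ → (pt a).1 a = true := by
    intro a ha
    simp only [hpt, dif_pos ha]
    exact (exists_point ha).choose_spec
  set l : Finset A → StrongDual ℝ C(stone A, ℝ) := fun F =>
    ∑ S ∈ F.powerset, m (atom F S) • ContinuousMap.evalCLM ℝ (pt (atom F S)) with hl
  have hlx : ∀ F x, l F x = ∑ S ∈ F.powerset, m (atom F S) * x (pt (atom F S)) := by
    intro F x
    simp only [hl, sum_apply]
    rfl
  have hsum : ∀ F : Finset A, ∑ S ∈ F.powerset, m (atom F S) = m ⊤ := by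
    intro F
    rw [← sum_atom hadd F ⊤]
    refine Finset.sum_congr rfl fun S _ => by rw [inf_top_eq]
  have hnorm : ∀ F, ‖l F‖ ≤ m ⊤ := by
    intro F
    refine ContinuousLinearMap.opNorm_le_bound _ (h0 _) fun x => ?_
    rw [hlx, ← hsum F, Finset.sum_mul]
    refine (norm_sum_le _ _).trans (Finset.sum_le_sum fun S _ => ?_)
    rw [norm_mul, Real.norm_of_nonneg (h0 _)]
    exact mul_le_mul_of_nonneg_left (x.norm_coe_le_norm _) (h0 _)
  obtain ⟨L, hL⟩ := exists_ultra (Ultrafilter.of (atTop : Filter (Finset A))) l (m ⊤) hnorm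
  refine ⟨L, fun a => ?_, fun x hx => ?_, ?_⟩
  · refine tendsto_nhds_unique (hL (ind a)) (tendsto_const_nhds.congr' ?_)
    refine (Ultrafilter.of_le (atTop : Filter (Finset A))) ?_
    refine (eventually_ge_atTop ({a} : Finset A)).mono fun F hF => ?_
    have haF : a ∈ F := Finset.singleton_subset_iff.1 hF
    show m a = l F (ind a)
    rw [hlx, ← sum_atom hadd F a]
    refine Finset.sum_congr rfl fun S _ => ?_
    by_cases hb : atom F S = ⊥
    · rw [hb, bot_inf_eq, m_bot hadd, zero_mul]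
    · have h1 := hpt' _ hb
      by_cases haS : a ∈ S
      · have hle : atom F S ≤ a := inf_le_left.trans (Finset.inf_le (f := id) haS)
        rw [ind_apply, stone_mono _ hle h1, inf_eq_left.2 hle]
        simp
      · have hle : atom F S ≤ aᶜ :=
          inf_le_right.trans (Finset.inf_le (Finset.mem_sdiff.2 ⟨haF, haS⟩))
        have h2 := stone_mono _ hle h1
        rw [(pt (atom F S)).2.2] at h2
        have h3 : (pt (atom F S)).1 a = false := by simpa using h2
        have h4 : atom F S ⊓ a = ⊥ := by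
          refine le_bot_iff.1 ?_
          calc atom F S ⊓ a ≤ aᶜ ⊓ a := inf_le_inf_right _ hle
            _ = ⊥ := compl_inf_self a
        rw [ind_apply, h3, h4, m_bot hadd]
        simp
  · refine ge_of_tendsto (hL x) (Filter.Eventually.of_forall fun F => ?_)
    rw [hlx]
    exact Finset.sum_nonneg fun S _ => mul_nonneg (h0 _) (hx _)
  · refine ContinuousLinearMap.opNorm_le_bound _ (h0 _) fun x => ?_
    refine le_of_tendsto (hL x).norm (Filter.Eventually.of_forall fun F => ?_)
    refine ((l F).le_opNorm x).trans ?_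
    exact mul_le_mul_of_nonneg_right (hnorm F) (norm_nonneg _)

end additive

end functional

/-! ### Homomorphisms into the measure algebra -/

section main

variable {A : Type u} [BooleanAlgebra A] {Ω : Type v} [MeasurableSpace Ω] {μ : Measure Ω}

theorem IsHom.ae_inf {φ : A → Set Ω} (h : IsHom μ φ) (a b : A) :
    ∀ᵐ ω ∂μ, ω ∈ φ (a ⊓ b) ↔ ω ∈ φ a ∧ ω ∈ φ b := (h.inf a b).mem_iff

theorem IsHom.ae_compl {φ : A → Set Ω} (h : IsHom μ φ) (a : A) :
    ∀ᵐ ω ∂μ, ω ∈ φ aᶜ ↔ ω ∉ φ a := (h.compl a).mem_iff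

theorem IsHom.ae_sup {φ : A → Set Ω} (h : IsHom μ φ) (a b : A) :
    ∀ᵐ ω ∂μ, ω ∈ φ (a ⊔ b) ↔ ω ∈ φ a ∨ ω ∈ φ b := by
  have e : a ⊔ b = (aᶜ ⊓ bᶜ)ᶜ := by rw [compl_inf, compl_compl, compl_compl]
  filter_upwards [h.ae_compl (aᶜ ⊓ bᶜ), h.ae_inf aᶜ bᶜ, h.ae_compl a, h.ae_compl b]
    with ω h1 h2 h3 h4
  rw [e, h1, h2, h3, h4]
  tauto

theorem IsHom.ae_bot {φ : A → Set Ω} (h : IsHom μ φ) : ∀ᵐ ω ∂μ, ω ∉ φ ⊥ := by
  filter_upwards [h.ae_inf ⊥ ⊥ᶜ, h.ae_compl ⊥] with ω h1 h2
  rw [inf_compl_self, h2] at h1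
  tauto

theorem IsHom.ae_mono {φ : A → Set Ω} (h : IsHom μ φ) {a b : A} (hab : a ≤ b) :
    ∀ᵐ ω ∂μ, ω ∈ φ a → ω ∈ φ b := by
  filter_upwards [h.ae_inf a b] with ω h1
  rw [inf_eq_left.2 hab] at h1
  tauto

variable {φ : ℕ → A → Set Ω} {ψ : A → Set Ω}

theorem AlgConv.ae (hc : AlgConv μ φ ψ) (a : A) :
    ∀ᵐ ω ∂μ, ∃ N, ∀ n ≥ N, (ω ∈ φ n a ↔ ω ∈ ψ a) := by
  filter_upwards [(hc a).1.mem_iff, (hc a).2.mem_iff] with ω h1 h2
  by_cases hω : ω ∈ ψ a
  · have h3 := h1.2 hω
    simp only [mem_iUnion, mem_iInter] at h3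
    obtain ⟨N, hN⟩ := h3
    exact ⟨N + 1, fun n hn => ⟨fun _ => hω, fun _ => hN n (by omega)⟩⟩
  · have h3 : ω ∉ ⋂ n, ⋃ m > n, φ m a := fun h => hω (h2.1 h)
    simp only [mem_iUnion, mem_iInter, not_forall, not_exists] at h3
    obtain ⟨N, hN⟩ := h3
    exact ⟨N + 1, fun n hn => ⟨fun h => absurd h (hN n (by omega)), fun h => absurd h hω⟩⟩

/-- The points at which `φ n a` and `ψ a` differ for some `n ≥ k`. -/
def bad (φ : ℕ → A → Set Ω) (ψ : A → Set Ω) (k : ℕ) (a : A) : Set Ω := ⋃ n ≥ k, φ n a ∆ ψ a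

theorem mem_bad (k : ℕ) (a : A) (ω : Ω) :
    ω ∈ bad φ ψ k a ↔ ∃ n ≥ k, ¬ (ω ∈ φ n a ↔ ω ∈ ψ a) := by
  unfold bad
  simp only [mem_iUnion, Set.mem_symmDiff, exists_prop]
  refine exists_congr fun n => and_congr_right fun _ => ?_
  tauto

theorem tendsto_bad [IsProbabilityMeasure μ] (hφ : ∀ n, IsHom μ (φ n)) (hψ : IsHom μ ψ)
    (hc : AlgConv μ φ ψ) (a : A) :
    Tendsto (fun k => μ.real (bad φ ψ k a)) atTop (𝓝 0) := by
  have hm : ∀ k, MeasurableSet (bad φ ψ k a) := fun k =>
    MeasurableSet.biUnion (to_countable _) fun n _ => ((hφ n).meas a).symmDiff (hψ.meas a)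
  have hanti : Antitone fun k => bad φ ψ k a := by
    intro k l hkl ω hω
    rw [mem_bad] at hω ⊢
    obtain ⟨n, hn, h⟩ := hω
    exact ⟨n, hkl.trans hn, h⟩
  have h1 := tendsto_measure_iInter_atTop (μ := μ) (fun k => (hm k).nullMeasurableSet) hanti
    ⟨0, measure_ne_top _ _⟩
  have h2 : μ (⋂ k, bad φ ψ k a) = 0 := by
    rw [← compl_mem_ae_iff]
    filter_upwards [hc.ae a] with ω ⟨N, hN⟩ h
    have h3 := (mem_bad N a ω).1 (mem_iInter.1 h N)
    obtain ⟨n, hn, h4⟩ := h3
    exact h4 (hN n hn)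
  rw [h2] at h1
  exact (ENNReal.tendsto_toReal ENNReal.zero_ne_top).comp h1

/-- With the positive Grothendieck property the convergence extends to countable unions. -/
theorem claimK [IsProbabilityMeasure μ] (hpos : PosGrothendieck A) (hφ : ∀ n, IsHom μ (φ n))
    (hψ : IsHom μ ψ) (hc : AlgConv μ φ ψ) (D : ℕ → A) (hD : Monotone D) :
    ∀ᵐ ω ∂μ, (∀ N, ∃ n ≥ N, ∃ i, ω ∈ φ n (D i)) → ∃ i, ω ∈ ψ (D i) := by
  classical
  set B : ℕ → Set Ω := fun n => ⋃ i, φ n (D i) with hB
  have hBm : ∀ n, MeasurableSet (B n) := fun n => MeasurableSet.iUnion fun i => (hφ n).meas _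
  set P : Set Ω := (⋂ N, ⋃ n ≥ N, B n) \ ⋃ i, ψ (D i) with hP
  have hPm : MeasurableSet P := by
    refine MeasurableSet.diff ?_ (MeasurableSet.iUnion fun i => hψ.meas _)
    exact MeasurableSet.iInter fun N => MeasurableSet.biUnion (to_countable _) fun n _ => hBm n
  -- it is enough that `P` is null
  suffices hnull : μ P = 0 by
    filter_upwards [compl_mem_ae_iff.2 hnull] with ω hω h
    by_contra hne
    refine hω ⟨?_, ?_⟩
    · simp only [mem_iInter, mem_iUnion, hB, exists_prop]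
      exact h
    · simp only [mem_iUnion]
      exact hne
  set E : ℕ → ℕ → Set Ω := fun k n => if k ≤ n then B n \ ⋃ j ∈ Finset.Ico k n, B j else ∅ with hE
  have hEm : ∀ k n, MeasurableSet (E k n) := by
    intro k n
    simp only [hE]
    split_ifs
    · exact (hBm n).diff (Finset.measurableSet_biUnion _ fun j _ => hBm j)
    · exact MeasurableSet.empty
  have hEmem : ∀ k n ω, ω ∈ E k n ↔ k ≤ n ∧ ω ∈ B n ∧ ∀ j, k ≤ j → j < n → ω ∉ B j := by
    intro k n ω
    simp only [hE]
    split_ifs with h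
    · simp only [Set.mem_sdiff, mem_iUnion, Finset.mem_Ico, not_exists, exists_prop, not_and, and_imp]
      exact ⟨fun h1 => ⟨h, h1.1, h1.2⟩, fun h1 => h1.2⟩
    · simp [h]
  have hEuniq : ∀ k n n' ω, ω ∈ E k n → ω ∈ E k n' → n = n' := by
    intro k n n' ω h h'
    rw [hEmem] at h h'
    by_contra hne
    rcases lt_or_gt_of_ne hne with hlt | hlt
    · exact h'.2.2 n h.1 hlt h.2.1
    · exact h.2.2 n' h'.1 hlt h'.2.1
  have hEex : ∀ k, ∀ ω ∈ P, ∃ n, ω ∈ E k n := by
    intro k ω hω
    have h1 : ∃ n, k ≤ n ∧ ω ∈ B n := by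
      have := mem_iInter.1 hω.1 k
      simp only [mem_iUnion, exists_prop] at this
      exact this
    refine ⟨Nat.find h1, (hEmem _ _ _).2 ⟨(Nat.find_spec h1).1, (Nat.find_spec h1).2, ?_⟩⟩
    intro j hj hj' hjB
    exact Nat.find_min h1 hj' ⟨hj, hjB⟩
  set G : ℕ → A → Set Ω := fun k a => P ∩ ⋃ n, E k n ∩ φ n a with hG
  have hGm : ∀ k a, MeasurableSet (G k a) := fun k a =>
    hPm.inter (MeasurableSet.iUnion fun n => (hEm k n).inter ((hφ n).meas a))
  have hGmem : ∀ k a n ω, ω ∈ P → ω ∈ E k n → (ω ∈ G k a ↔ ω ∈ φ n a) := by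
    intro k a n ω hω hn
    simp only [hG, mem_inter_iff, mem_iUnion]
    constructor
    · rintro ⟨_, n', h1, h2⟩
      rw [hEuniq k n n' ω hn h1]
      exact h2
    · intro h
      exact ⟨hω, n, hn, h⟩
  have hGP : ∀ k a, G k a ⊆ P := fun k a => inter_subset_left
  -- the functionals
  have hfun : ∀ k, ∃ L : StrongDual ℝ C(stone A, ℝ), (∀ a, L (ind a) = μ.real (G k a)) ∧
      (∀ x, 0 ≤ x → 0 ≤ L x) ∧ ‖L‖ ≤ μ.real (G k ⊤) := by
    intro k
    refine exists_functional (fun a => measureReal_nonneg) fun a b hab => ?_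
    have h1 : ∀ᵐ ω ∂μ, ∀ n, (ω ∈ φ n (a ⊔ b) ↔ ω ∈ φ n a ∨ ω ∈ φ n b) ∧
        ¬ (ω ∈ φ n a ∧ ω ∈ φ n b) := by
      rw [ae_all_iff]
      intro n
      filter_upwards [(hφ n).ae_sup a b, (hφ n).ae_inf a b, (hφ n).ae_bot] with ω h1 h2 h3
      rw [hab] at h2
      exact ⟨h1, fun h => h3 (h2.2 h)⟩
    have h2 : G k (a ⊔ b) =ᵐ[μ] (G k a ∪ G k b : Set Ω) := by
      filter_upwards [h1] with ω h3
      refine propext ?_
      show ω ∈ G k (a ⊔ b) ↔ ω ∈ G k a ∪ G k b
      by_cases hω : ω ∈ P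
      · obtain ⟨n, hn⟩ := hEex k ω hω
        rw [mem_union, hGmem k _ n ω hω hn, hGmem k _ n ω hω hn, hGmem k _ n ω hω hn]
        exact (h3 n).1
      · exact ⟨fun h => absurd (hGP _ _ h) hω, fun h => absurd (h.elim (fun h => hGP _ _ h)
          (fun h => hGP _ _ h)) hω⟩
    have h4 : AEDisjoint μ (G k a) (G k b) := by
      show μ (G k a ∩ G k b) = 0
      rw [← compl_mem_ae_iff]
      filter_upwards [h1] with ω h3 h
      have hω : ω ∈ P := hGP _ _ h.1
      obtain ⟨n, hn⟩ := hEex k ω hω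
      exact (h3 n).2 ⟨(hGmem k _ n ω hω hn).1 h.1, (hGmem k _ n ω hω hn).1 h.2⟩
    rw [measureReal_congr h2, measureReal_def, measure_union₀ (hGm k b).nullMeasurableSet h4,
      ENNReal.toReal_add (measure_ne_top _ _) (measure_ne_top _ _)]
    rfl
  choose f hf1 hf2 hf3 using hfun
  obtain ⟨g, hg1, hg2, hg3⟩ : ∃ L : StrongDual ℝ C(stone A, ℝ),
      (∀ a, L (ind a) = μ.real (P ∩ ψ a)) ∧ (∀ x, 0 ≤ x → 0 ≤ L x) ∧
      ‖L‖ ≤ μ.real (P ∩ ψ ⊤) := by
    refine exists_functional (m := fun a => μ.real (P ∩ ψ a)) (fun a => measureReal_nonneg)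
      fun a b hab => ?_
    have h2 : (P ∩ ψ (a ⊔ b) : Set Ω) =ᵐ[μ] (P ∩ ψ a ∪ P ∩ ψ b : Set Ω) := by
      filter_upwards [hψ.ae_sup a b] with ω h3
      refine propext ?_
      show ω ∈ P ∩ ψ (a ⊔ b) ↔ ω ∈ P ∩ ψ a ∪ P ∩ ψ b
      simp only [mem_inter_iff, mem_union, h3]
      tauto
    have h4 : AEDisjoint μ (P ∩ ψ a) (P ∩ ψ b) := by
      show μ ((P ∩ ψ a) ∩ (P ∩ ψ b)) = 0
      rw [← compl_mem_ae_iff]
      filter_upwards [hψ.ae_inf a b, hψ.ae_bot] with ω h3 h5 h
      rw [hab] at h3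
      exact h5 (h3.2 ⟨h.1.2, h.2.2⟩)
    show μ.real (P ∩ ψ (a ⊔ b)) = μ.real (P ∩ ψ a) + μ.real (P ∩ ψ b)
    rw [measureReal_congr h2, measureReal_def,
      measure_union₀ (hPm.inter (hψ.meas b)).nullMeasurableSet h4,
      ENNReal.toReal_add (measure_ne_top _ _) (measure_ne_top _ _)]
    rfl
  have hconv : ∀ a, Tendsto (fun k => f k (ind a)) atTop (𝓝 (g (ind a))) := by
    intro a
    rw [tendsto_iff_dist_tendsto_zero]
    refine squeeze_zero (fun k => dist_nonneg) (fun k => ?_) (tendsto_bad hφ hψ hc a)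
    rw [hf1, hg1, Real.dist_eq]
    refine (abs_measureReal_sub_le_measureReal_symmDiff (hGm k a).nullMeasurableSet
      (hPm.inter (hψ.meas a)).nullMeasurableSet).trans (measureReal_mono ?_ (measure_ne_top _ _))
    intro ω hω
    have hωP : ω ∈ P := by
      rcases hω with h | h
      · exact hGP _ _ h.1
      · exact h.1.1
    obtain ⟨n, hn⟩ := hEex k ω hωP
    rw [mem_bad]
    refine ⟨n, ((hEmem _ _ _).1 hn).1, ?_⟩
    rw [← hGmem k a n ω hωP hn]
    rcases hω with h | h
    · intro h1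
      exact h.2 ⟨hωP, h1.1 h.1⟩
    · intro h1
      exact h.2 (h1.2 h.1.2)
  have hweak := tendsto_of_ind f g (fun k => (hf3 k).trans measureReal_le_one)
    (hg3.trans measureReal_le_one) hconv
  obtain ⟨Φ, hΦ⟩ := exists_ultra (E := StrongDual ℝ C(stone A, ℝ)) (hyperfilter ℕ)
    (fun i => ContinuousLinearMap.apply ℝ ℝ (ind (D i))) 1 (fun i => by
        refine ContinuousLinearMap.opNorm_le_bound _ zero_le_one fun l => ?_
        show ‖l (ind (D i))‖ ≤ 1 * ‖l‖
        refine (l.le_opNorm _).trans ?_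
        rw [mul_comm]
        exact mul_le_mul_of_nonneg_right (norm_ind_le _) (norm_nonneg _))
  have hΦf : ∀ k, Φ (f k) = μ.real P := by
    intro k
    refine tendsto_nhds_unique (hΦ (f k)) ?_
    show Tendsto (fun i => f k (ind (D i))) _ _
    simp only [hf1]
    refine Tendsto.mono_left ?_ Nat.hyperfilter_le_atTop
    set G' : ℕ → Set Ω := fun i => P ∩ ⋃ n, E k n ∩ ⋃ j ≤ i, φ n (D j) with hG'
    have hG'mem : ∀ i n ω, ω ∈ P → ω ∈ E k n → (ω ∈ G' i ↔ ∃ j ≤ i, ω ∈ φ n (D j)) := by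
      intro i n ω hω hn
      simp only [hG', mem_inter_iff, mem_iUnion, exists_prop]
      constructor
      · rintro ⟨_, n', h1, h2⟩
        rw [hEuniq k n n' ω hn h1]
        exact h2
      · intro h
        exact ⟨hω, n, hn, h⟩
    have hmono : Monotone G' := by
      intro i i' hi ω hω
      have hωP : ω ∈ P := hω.1
      obtain ⟨n, hn⟩ := hEex k ω hωP
      rw [hG'mem _ n ω hωP hn] at hω ⊢
      obtain ⟨j, hj, h⟩ := hω
      exact ⟨j, hj.trans hi, h⟩
    have hU : ⋃ i, G' i = P := by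
      refine Subset.antisymm (iUnion_subset fun i => inter_subset_left) fun ω hω => ?_
      obtain ⟨n, hn⟩ := hEex k ω hω
      have h1 : ω ∈ B n := ((hEmem _ _ _).1 hn).2.1
      obtain ⟨i, hi⟩ := mem_iUnion.1 h1
      exact mem_iUnion.2 ⟨i, (hG'mem i n ω hω hn).2 ⟨i, le_rfl, hi⟩⟩
    have h1 := tendsto_measure_iUnion_atTop (μ := μ) hmono
    rw [hU] at h1
    have h2 : ∀ i, G k (D i) =ᵐ[μ] G' i := by
      intro i
      have h3 : ∀ᵐ ω ∂μ, ∀ n, ∀ j, j ≤ i → ω ∈ φ n (D j) → ω ∈ φ n (D i) := by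
        rw [ae_all_iff]; intro n
        rw [ae_all_iff]; intro j
        by_cases hj : j ≤ i
        · filter_upwards [(hφ n).ae_mono (hD hj)] with ω h _ using h
        · exact Filter.Eventually.of_forall fun ω h => absurd h hj
      filter_upwards [h3] with ω h4
      refine propext ?_
      show ω ∈ G k (D i) ↔ ω ∈ G' i
      by_cases hω : ω ∈ P
      · obtain ⟨n, hn⟩ := hEex k ω hω
        rw [hGmem k _ n ω hω hn, hG'mem i n ω hω hn]
        exact ⟨fun h => ⟨i, le_rfl, h⟩, fun ⟨j, hj, h⟩ => h4 n j hj h⟩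
      · exact ⟨fun h => absurd h.1 hω, fun h => absurd h.1 hω⟩
    have h3 := (ENNReal.tendsto_toReal (measure_ne_top μ P)).comp h1
    refine h3.congr fun i => ?_
    show (μ (G' i)).toReal = (μ (G k (D i))).toReal
    rw [measure_congr (h2 i)]
  have hΦg : Φ g = 0 := by
    refine tendsto_nhds_unique (hΦ g) ?_
    show Tendsto (fun i => g (ind (D i))) _ _
    simp only [hg1]
    refine tendsto_const_nhds.congr fun i => ?_
    have : P ∩ ψ (D i) = ∅ := by
      refine eq_empty_of_forall_notMem fun ω hω => ?_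
      exact hω.1.2 (mem_iUnion.2 ⟨i, hω.2⟩)
    rw [this, measureReal_empty]
  have hfin := hpos f g hf2 hweak Φ
  simp only [hΦf, hΦg] at hfin
  have h0 : μ.real P = 0 := tendsto_nhds_unique tendsto_const_nhds hfin
  exact (measureReal_eq_zero_iff (measure_ne_top _ _)).1 h0

end main

/-! ### Counting -/

theorem card_avoid {Y : Type} [Fintype Y] [DecidableEq Y] (q : ℕ) [NeZero q] (S : Finset Y) :
    ((Finset.univ.filter fun h : Y → Fin q => ∀ y ∈ S, h y ≠ 0).card : ℝ) =
      (q : ℝ) ^ (Fintype.card Y) * (1 - 1 / q) ^ S.card := by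
  classical
  have hq : (q : ℝ) ≠ 0 := Nat.cast_ne_zero.2 (NeZero.ne q)
  have e : (Finset.univ.filter fun h : Y → Fin q => ∀ y ∈ S, h y ≠ 0) =
      Fintype.piFinset (fun y => if y ∈ S then Finset.univ.erase (0 : Fin q) else Finset.univ) := by
    ext h
    simp only [Finset.mem_filter, Finset.mem_univ, true_and, Fintype.mem_piFinset]
    refine forall_congr' fun y => ?_
    split_ifs with hy
    · simp [hy]
    · simp [hy]
  rw [e, Fintype.card_piFinset]
  have e2 : ∀ y, ((if y ∈ S then Finset.univ.erase (0 : Fin q) else Finset.univ).card : ℝ) =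
      q * (if y ∈ S then (1 - 1 / (q : ℝ)) else 1) := by
    intro y
    split_ifs with hy
    · rw [Finset.card_erase_of_mem (Finset.mem_univ _), Finset.card_univ, Fintype.card_fin,
        Nat.cast_sub (Nat.one_le_iff_ne_zero.2 (NeZero.ne q))]
      field_simp
      simp
    · simp
  rw [Nat.cast_prod, Finset.prod_congr rfl fun y _ => e2 y, Finset.prod_mul_distrib,
    Finset.prod_const, Finset.card_univ, Finset.prod_ite_mem, Finset.univ_inter,
    Finset.prod_const]

theorem pow_bound (q : ℕ) (hq : 0 < q) (s : ℕ) (hs : s ≤ q) :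
    (1 - 1 / (q : ℝ)) ^ s ≤ 1 - s / (2 * q) := by
  have hq' : (0 : ℝ) < q := Nat.cast_pos.2 hq
  induction s with
  | zero => simp
  | succ s ih =>
    have h1 := ih (by omega)
    have hq1 : (1 : ℝ) ≤ q := Nat.one_le_cast.2 hq
    have h2 : (0 : ℝ) ≤ 1 - 1 / q := by
      rw [sub_nonneg, div_le_one hq']
      exact hq1
    have h3 : (s : ℝ) ≤ q := by exact_mod_cast (by omega : s ≤ q)
    calc (1 - 1 / (q : ℝ)) ^ (s + 1) = (1 - 1 / (q : ℝ)) ^ s * (1 - 1 / q) := pow_succ _ _
      _ ≤ (1 - s / (2 * q)) * (1 - 1 / q) := mul_le_mul_of_nonneg_right h1 h2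
      _ ≤ 1 - ((s + 1 : ℕ) : ℝ) / (2 * q) := by
        push_cast
        have h4 : (s : ℝ) / (2 * q) * (1 / q) ≤ 1 / (2 * q) := by
          rw [div_mul_div_comm, mul_one, div_le_div_iff₀ (by positivity) (by positivity)]
          nlinarith
        have h5 : ((s : ℝ) + 1) / (2 * q) = s / (2 * q) + 1 / (2 * q) := by ring
        have h6 : (1 : ℝ) / q = 1 / (2 * q) + 1 / (2 * q) := by field_simp; ring
        have h7 : (1 - (s : ℝ) / (2 * q)) * (1 - 1 / q) =
            1 - s / (2 * q) - 1 / q + s / (2 * q) * (1 / q) := by ring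
        rw [h7, h5]
        linarith

theorem card_total {Y : Type} [Fintype Y] [DecidableEq Y] (q : ℕ) :
    ((Finset.univ : Finset (Y → Fin q)).card : ℝ) = (q : ℝ) ^ (Fintype.card Y) := by
  rw [Finset.card_univ, Fintype.card_fun, Fintype.card_fin]
  push_cast
  rfl

theorem card_hit {Y : Type} [Fintype Y] [DecidableEq Y] (q : ℕ) [NeZero q] (S : Finset Y)
    (hS : S.card ≤ q) : (q : ℝ) ^ (Fintype.card Y) * (S.card / (2 * q)) ≤
      ((Finset.univ.filter fun h : Y → Fin q => ∃ y ∈ S, h y = 0).card : ℝ) := by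
  classical
  have h1 := Finset.card_filter_add_card_filter_not (s := (Finset.univ : Finset (Y → Fin q)))
    (fun h => ∃ y ∈ S, h y = 0)
  have h2 : (Finset.univ.filter fun h : Y → Fin q => ¬ ∃ y ∈ S, h y = 0) =
      Finset.univ.filter fun h : Y → Fin q => ∀ y ∈ S, h y ≠ 0 := by
    refine Finset.filter_congr fun h _ => ?_
    push Not
    rfl
  rw [h2] at h1
  have h3 : ((Finset.univ.filter fun h : Y → Fin q => ∃ y ∈ S, h y = 0).card : ℝ) +
      ((Finset.univ.filter fun h : Y → Fin q => ∀ y ∈ S, h y ≠ 0).card : ℝ) =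
      (q : ℝ) ^ (Fintype.card Y) := by
    rw [← card_total, ← h1]
    push_cast
    rfl
  rw [card_avoid] at h3
  have h4 := pow_bound q (Nat.pos_of_ne_zero (NeZero.ne q)) S.card hS
  have h5 : (0 : ℝ) ≤ (q : ℝ) ^ (Fintype.card Y) := by positivity
  nlinarith

theorem card_one {Y : Type} [Fintype Y] [DecidableEq Y] (q : ℕ) [NeZero q] (y : Y) :
    ((Finset.univ.filter fun h : Y → Fin q => h y = 0).card : ℝ) =
      (q : ℝ) ^ (Fintype.card Y) * (1 / q) := by
  classical
  have h1 := Finset.card_filter_add_card_filter_not (s := (Finset.univ : Finset (Y → Fin q)))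
    (fun h => h y = 0)
  have h2 : (Finset.univ.filter fun h : Y → Fin q => ¬ h y = 0) =
      Finset.univ.filter fun h : Y → Fin q => ∀ z ∈ ({y} : Finset Y), h z ≠ 0 := by
    refine Finset.filter_congr fun h _ => ?_
    simp
  rw [h2] at h1
  have h3 : ((Finset.univ.filter fun h : Y → Fin q => h y = 0).card : ℝ) +
      ((Finset.univ.filter fun h : Y → Fin q => ∀ z ∈ ({y} : Finset Y), h z ≠ 0).card : ℝ) =
      (q : ℝ) ^ (Fintype.card Y) := by
    rw [← card_total, ← h1]
    push_cast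
    rfl
  rw [card_avoid, Finset.card_singleton, pow_one] at h3
  linarith

/-! ### The stage lemma -/

section stage

variable {A : Type u} [BooleanAlgebra A] {Ω : Type v} [MeasurableSpace Ω] {μ : Measure Ω}

theorem IsHom.ae_top {φ : A → Set Ω} (h : IsHom μ φ) : ∀ᵐ ω ∂μ, ω ∈ φ ⊤ := by
  filter_upwards [h.ae_bot, h.ae_compl ⊥] with ω h1 h2
  rw [← compl_bot, h2]
  exact h1

theorem IsHom.ae_finset_inf {φ : A → Set Ω} (h : IsHom μ φ) {ι : Type} (s : Finset ι)
    (f : ι → A) : ∀ᵐ ω ∂μ, ω ∈ φ (s.inf f) ↔ ∀ i ∈ s, ω ∈ φ (f i) := by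
  classical
  induction s using Finset.induction_on with
  | empty => filter_upwards [h.ae_top] with ω h1; simpa using h1
  | insert i s hi ih =>
    filter_upwards [ih, h.ae_inf (f i) (s.inf f)] with ω h1 h2
    rw [Finset.inf_insert, h2, h1, Finset.forall_mem_insert]

theorem IsHom.ae_finset_sup {φ : A → Set Ω} (h : IsHom μ φ) {ι : Type} (s : Finset ι)
    (f : ι → A) : ∀ᵐ ω ∂μ, ω ∈ φ (s.sup f) ↔ ∃ i ∈ s, ω ∈ φ (f i) := by
  classical
  induction s using Finset.induction_on with
  | empty => filter_upwards [h.ae_bot] with ω h1; simpa using h1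
  | insert i s hi ih =>
    filter_upwards [ih, h.ae_sup (f i) (s.sup f)] with ω h1 h2
    rw [Finset.sup_insert, h2, h1, Finset.exists_mem_insert]

open Classical in
/-- The pattern of the point `ω` with respect to the elements `B j`. -/
noncomputable def pt {q : ℕ} (B : ℕ → A) (θ : A → Set Ω) (ω : Ω) : Fin q → Bool :=
  fun j => decide (ω ∈ θ (B j))

/-- The element given by the set of the patterns `u` with `h u = 0`. -/
def CC {q : ℕ} [NeZero q] (B : ℕ → A) (h : (Fin q → Bool) → Fin q) : A :=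
  (Finset.univ.filter fun u : Fin q → Bool => h u = 0).sup fun u =>
    (Finset.univ : Finset (Fin q)).inf fun j => if u j then B j else (B j)ᶜ

theorem ae_CC {q : ℕ} [NeZero q] {θ : A → Set Ω} (hθ : IsHom μ θ) (B : ℕ → A) :
    ∀ᵐ ω ∂μ, ∀ h : (Fin q → Bool) → Fin q, ω ∈ θ (CC B h) ↔ h (pt B θ ω) = 0 := by
  classical
  have h1 : ∀ᵐ ω ∂μ, ∀ u : Fin q → Bool,
      (ω ∈ θ ((Finset.univ : Finset (Fin q)).inf fun j => if u j then B j else (B j)ᶜ) ↔
        ∀ j ∈ (Finset.univ : Finset (Fin q)), ω ∈ θ (if u j then B j else (B j)ᶜ)) := by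
    rw [ae_all_iff]
    intro u
    exact hθ.ae_finset_inf _ _
  have h2 : ∀ᵐ ω ∂μ, ∀ j : Fin q, (ω ∈ θ (B j)ᶜ ↔ ω ∉ θ (B j)) := by
    rw [ae_all_iff]
    intro j
    exact hθ.ae_compl _
  have h3 : ∀ᵐ ω ∂μ, ∀ h : (Fin q → Bool) → Fin q, (ω ∈ θ (CC B h) ↔
      ∃ u ∈ (Finset.univ.filter fun u : Fin q → Bool => h u = 0),
        ω ∈ θ ((Finset.univ : Finset (Fin q)).inf fun j => if u j then B j else (B j)ᶜ)) := by
    rw [ae_all_iff]
    intro h
    exact hθ.ae_finset_sup _ _
  filter_upwards [h1, h2, h3] with ω h4 h5 h6 h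
  rw [h6 h]
  constructor
  · rintro ⟨u, hu, hω⟩
    rw [h4 u] at hω
    have : pt B θ ω = u := by
      funext j
      have h7 := hω j (Finset.mem_univ j)
      unfold pt
      cases hj : u j
      · rw [hj] at h7
        simp only [Bool.false_eq_true, if_false] at h7
        rw [h5] at h7
        simpa using h7
      · rw [hj] at h7
        simpa using h7
    rw [this]
    exact (Finset.mem_filter.1 hu).2
  · intro h0
    refine ⟨pt B θ ω, Finset.mem_filter.2 ⟨Finset.mem_univ _, h0⟩, (h4 _).2 fun j _ => ?_⟩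
    by_cases hj : ω ∈ θ (B j)
    · have : pt B θ ω j = true := by simpa [pt] using hj
      rw [this]
      simpa using hj
    · have : pt B θ ω j = false := by simpa [pt] using hj
      rw [this]
      simp only [Bool.false_eq_true, if_false]
      exact (h5 j).2 hj

theorem measurable_pt {q : ℕ} {θ : A → Set Ω} (hθ : IsHom μ θ) (B : ℕ → A) :
    Measurable (pt (q := q) B θ) := by
  refine measurable_pi_lambda _ fun j => measurable_to_bool ?_
  have : (fun ω => pt (q := q) B θ ω j) ⁻¹' {true} = θ (B j) := by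
    ext ω
    simp [pt]
  rw [this]
  exact hθ.meas _

variable {φ : ℕ → A → Set Ω} {ψ : A → Set Ω}

theorem stage [IsProbabilityMeasure μ] (hφ : ∀ n, IsHom μ (φ n)) (hψ : IsHom μ ψ)
    (hc : AlgConv μ φ ψ) {ε : ℝ} (hε : 0 < ε)
    (hnu : ∀ N, ∃ n ≥ N, ∃ a, ε < μ.real (φ n a ∆ ψ a)) (k : ℕ) {η : ℝ} (hη : 0 < η) :
    ∃ C : A, μ.real (ψ C) ≤ η ∧ ε / 4 ≤ μ.real (⋃ n ≥ k, φ n C) := by
  classical
  obtain ⟨q0, hq0⟩ := exists_nat_ge (8 / (η * ε))
  set q : ℕ := q0 + 1 with hq
  have hqpos : 0 < q := Nat.succ_pos _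
  have : NeZero q := ⟨hqpos.ne'⟩
  have hqR : (0 : ℝ) < q := Nat.cast_pos.2 hqpos
  have hqK : 1 / η / q ≤ ε / 8 := by
    have h1 : 8 / (η * ε) ≤ q := hq0.trans (by rw [hq]; push_cast; linarith)
    rw [div_div, div_le_div_iff₀ (by positivity) (by norm_num)]
    rw [div_le_iff₀ (by positivity)] at h1
    linarith
  set δ : ℝ := ε / (4 * q) with hδ
  have hδpos : 0 < δ := by positivity
  -- the sequence
  have hex : ∀ a, ∃ N, ∀ n ≥ N, μ.real (φ n a ∆ ψ a) ≤ δ := by
    intro a
    obtain ⟨N, hN⟩ := (Metric.tendsto_atTop.1 (tendsto_bad hφ hψ hc a)) δ hδpos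
    refine ⟨N, fun n hn => ?_⟩
    have h1 := hN n hn
    rw [Real.dist_eq, sub_zero] at h1
    refine le_trans (measureReal_mono ?_ (measure_ne_top _ _)) ((le_abs_self _).trans h1.le)
    exact subset_biUnion_of_mem (u := fun n => φ n a ∆ ψ a) (le_refl n)
  obtain ⟨s, hs1, hs2⟩ := exists_seq_of_forall_finset_exists
    (fun x : ℕ × A => k ≤ x.1 ∧ ε < μ.real (φ x.1 x.2 ∆ ψ x.2))
    (fun x y => μ.real (φ y.1 x.2 ∆ ψ x.2) ≤ δ) (fun t _ => by
      choose N hN using hex
      obtain ⟨n, hn, a, ha⟩ := hnu (max k (t.sup fun x => N x.2))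
      refine ⟨(n, a), ⟨(le_max_left _ _).trans hn, ha⟩, fun x hx => hN x.2 n ?_⟩
      exact (Finset.le_sup (f := fun x : ℕ × A => N x.2) hx).trans ((le_max_right _ _).trans hn))
  set B : ℕ → A := fun i => (s i).2 with hB
  set nn : ℕ → ℕ := fun i => (s i).1 with hnn
  set F : ℕ → Set Ω := fun i => (φ (nn i) (B i) ∆ ψ (B i)) \
    ⋃ j ∈ Finset.range i, (φ (nn i) (B j) ∆ ψ (B j)) with hF
  have hFm : ∀ i, MeasurableSet (F i) := fun i =>
    (((hφ _).meas _).symmDiff (hψ.meas _)).diff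
      (Finset.measurableSet_biUnion _ fun j _ => ((hφ _).meas _).symmDiff (hψ.meas _))
  have hFmeas : ∀ i < q, 3 * ε / 4 ≤ μ.real (F i) := by
    intro i hi
    have h1 : μ.real (φ (nn i) (B i) ∆ ψ (B i)) ≤
        μ.real (F i) + μ.real (⋃ j ∈ Finset.range i, (φ (nn i) (B j) ∆ ψ (B j))) := by
      refine le_trans (measureReal_mono ?_ (measure_ne_top _ _)) (measureReal_union_le _ _)
      intro ω hω
      by_cases h : ω ∈ ⋃ j ∈ Finset.range i, (φ (nn i) (B j) ∆ ψ (B j))
      · exact Or.inr h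
      · exact Or.inl ⟨hω, h⟩
    have h2 : μ.real (⋃ j ∈ Finset.range i, (φ (nn i) (B j) ∆ ψ (B j))) ≤ i * δ := by
      refine (measureReal_biUnion_finset_le _ _).trans ?_
      refine (Finset.sum_le_sum fun j hj => hs2 j i (Finset.mem_range.1 hj)).trans ?_
      rw [Finset.sum_const, Finset.card_range, nsmul_eq_mul]
    have h3 : (i : ℝ) * δ ≤ ε / 4 := by
      have h4 : (i : ℝ) ≤ q := by exact_mod_cast hi.le
      calc (i : ℝ) * δ ≤ q * δ := mul_le_mul_of_nonneg_right h4 hδpos.le
        _ = ε / 4 := by rw [hδ]; field_simp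
    have h5 := (hs1 i).2
    have h6 : ε < μ.real (φ (nn i) (B i) ∆ ψ (B i)) := h5
    linarith
  have hFmem : ∀ i ω, ω ∈ F i → ¬ (ω ∈ φ (nn i) (B i) ↔ ω ∈ ψ (B i)) ∧
      ∀ j < i, (ω ∈ φ (nn i) (B j) ↔ ω ∈ ψ (B j)) := by
    intro i ω hω
    simp only [hF, Set.mem_sdiff, Set.mem_symmDiff, mem_iUnion, Finset.mem_range, not_exists,
      exists_prop, not_and] at hω
    refine ⟨?_, fun j hj => ?_⟩
    · have := hω.1; tauto
    · have := hω.2 j hj; tauto
  -- the patterns are different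
  set y : Fin q → Ω → (Fin q → Bool) := fun i ω => pt B (φ (nn i)) ω with hy
  have hinj : ∀ ω (i i' : Fin q), ω ∈ F i → ω ∈ F i' → i < i' → y i ω ≠ y i' ω := by
    intro ω i i' hi hi' hlt heq
    have h1 := (hFmem i ω hi).1
    have h2 := (hFmem i' ω hi').2 i (Fin.lt_def.1 hlt)
    have h3 : decide (ω ∈ φ (nn i) (B i)) = decide (ω ∈ φ (nn i') (B i)) :=
      congrFun heq i
    rw [decide_eq_decide] at h3
    rw [← h2, h3] at h1
    exact h1 Iff.rfl
  set U : ((Fin q → Bool) → Fin q) → Set Ω := fun h => ⋃ i : Fin q, F i ∩ (y i) ⁻¹' {u | h u = 0}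
    with hU
  set V : ((Fin q → Bool) → Fin q) → Set Ω := fun h => (pt B ψ) ⁻¹' {u | h u = 0} with hV
  have hUm : ∀ h, MeasurableSet (U h) := fun h =>
    MeasurableSet.iUnion fun i => (hFm i).inter
      (measurable_pt (hφ _) B (to_countable _).measurableSet)
  have hVm : ∀ h, MeasurableSet (V h) := fun h =>
    measurable_pt hψ B (to_countable _).measurableSet
  have hVeq : ∀ h, μ.real (ψ (CC B h)) = μ.real (V h) := by
    intro h
    refine measureReal_congr ?_
    filter_upwards [ae_CC (q := q) hψ B] with ω h1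
    exact propext (h1 h)
  have hUle : ∀ h, μ.real (U h) ≤ μ.real (⋃ n ≥ k, φ n (CC B h)) := by
    intro h
    have h1 : ∀ᵐ ω ∂μ, ∀ i : Fin q, ω ∈ φ (nn i) (CC B h) ↔ h (y i ω) = 0 := by
      rw [ae_all_iff]
      intro i
      filter_upwards [ae_CC (q := q) (hφ (nn i)) B] with ω h2
      exact h2 h
    have h2 : U h ≤ᵐ[μ] (⋃ n ≥ k, φ n (CC B h) : Set Ω) := by
      filter_upwards [h1] with ω h3 hω
      obtain ⟨i, hi⟩ := mem_iUnion.1 hω
      exact mem_biUnion (hs1 i).1 ((h3 i).2 hi.2)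
    exact ENNReal.toReal_mono (measure_ne_top _ _) (measure_mono_ae h2)
  -- averaging
  set M : ℝ := (q : ℝ) ^ (Fintype.card (Fin q → Bool)) with hM
  have hMpos : 0 < M := by positivity
  set K : ℝ := 1 / η with hK
  have hKpos : 0 < K := by positivity
  have hpoint : ∀ ω, M * ((∑ i : Fin q, (F i).indicator (1 : Ω → ℝ) ω) / (2 * q)) - K * (M * (1 / q)) ≤
      ∑ h : (Fin q → Bool) → Fin q,
        ((U h).indicator (1 : Ω → ℝ) ω - K * (V h).indicator (1 : Ω → ℝ) ω) := by
    intro ω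
    rw [Finset.sum_sub_distrib, ← Finset.mul_sum]
    have e1 : ∑ h : (Fin q → Bool) → Fin q, (V h).indicator (1 : Ω → ℝ) ω = M * (1 / q) := by
      rw [hM, ← card_one q (pt (q := q) B ψ ω), Finset.card_filter]
      push_cast
      refine Finset.sum_congr rfl fun h _ => ?_
      rw [indicator_apply]
      exact if_congr Iff.rfl rfl rfl
    set I : Finset (Fin q) := Finset.univ.filter fun i => ω ∈ F i with hI
    have e2 : ∑ i : Fin q, (F i).indicator (1 : Ω → ℝ) ω = I.card := by
      rw [hI, Finset.card_filter]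
      push_cast
      refine Finset.sum_congr rfl fun i _ => ?_
      rw [indicator_apply]
      exact if_congr Iff.rfl rfl rfl
    have hcard : (I.image fun i => y i ω).card = I.card := by
      refine Finset.card_image_of_injOn ?_
      intro i hi i' hi' heq
      rw [Finset.mem_coe, hI, Finset.mem_filter] at hi hi'
      rcases lt_trichotomy i i' with h | h | h
      · exact absurd heq (hinj ω i i' hi.2 hi'.2 h)
      · exact h
      · exact absurd heq.symm (hinj ω i' i hi'.2 hi.2 h)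
    have e3 : ∑ h : (Fin q → Bool) → Fin q, (U h).indicator (1 : Ω → ℝ) ω =
        ((Finset.univ.filter fun h : (Fin q → Bool) → Fin q =>
          ∃ z ∈ I.image fun i => y i ω, h z = 0).card : ℝ) := by
      rw [Finset.card_filter]
      push_cast
      refine Finset.sum_congr rfl fun h _ => ?_
      rw [indicator_apply]
      have : ω ∈ U h ↔ ∃ z ∈ I.image fun i => y i ω, h z = 0 := by
        simp only [hU, mem_iUnion, mem_inter_iff, mem_preimage, mem_ofPred_eq, Finset.mem_image, hI,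
          Finset.mem_filter, Finset.mem_univ, true_and]
        constructor
        · rintro ⟨i, h1, h2⟩
          exact ⟨_, ⟨i, h1, rfl⟩, h2⟩
        · rintro ⟨_, ⟨i, h1, rfl⟩, h2⟩
          exact ⟨i, h1, h2⟩
      exact if_congr this rfl rfl
    have h4 := card_hit q (I.image fun i => y i ω) (by
      rw [hcard]
      exact (Finset.card_le_univ _).trans (by rw [Fintype.card_fin]))
    rw [hcard] at h4
    rw [e1, e2, e3]
    linarith
  have hintF : ∀ i, Integrable ((F i).indicator (1 : Ω → ℝ)) μ := fun i =>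
    (integrable_const (1 : ℝ)).indicator (hFm i)
  have hintU : ∀ h, Integrable ((U h).indicator (1 : Ω → ℝ)) μ := fun h =>
    (integrable_const (1 : ℝ)).indicator (hUm h)
  have hintV : ∀ h, Integrable ((V h).indicator (1 : Ω → ℝ)) μ := fun h =>
    (integrable_const (1 : ℝ)).indicator (hVm h)
  have hsum : M * (3 * ε / 8 - K / q) ≤
      ∑ h : (Fin q → Bool) → Fin q, (μ.real (U h) - K * μ.real (V h)) := by
    have iS : Integrable (fun ω => ∑ i : Fin q, (F i).indicator (1 : Ω → ℝ) ω) μ :=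
      integrable_finsetSum Finset.univ (fun (i : Fin q) _ => hintF i)
    have iL : Integrable (fun ω => M * ((∑ i : Fin q, (F i).indicator (1 : Ω → ℝ) ω) /
        (2 * q))) μ := (iS.div_const _).const_mul _
    have iH : ∀ h : (Fin q → Bool) → Fin q, Integrable (fun ω => (U h).indicator (1 : Ω → ℝ) ω -
        K * (V h).indicator (1 : Ω → ℝ) ω) μ := fun h => (hintU h).sub ((hintV h).const_mul K)
    have h1 : ∫ ω, (M * ((∑ i : Fin q, (F i).indicator (1 : Ω → ℝ) ω) / (2 * q)) -
        K * (M * (1 / q))) ∂μ ≤ ∫ ω, (∑ h : (Fin q → Bool) → Fin q,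
        ((U h).indicator (1 : Ω → ℝ) ω - K * (V h).indicator (1 : Ω → ℝ) ω)) ∂μ :=
      integral_mono (iL.sub (integrable_const _))
        (integrable_finsetSum Finset.univ fun h _ => iH h) hpoint
    have e1 : ∀ h : (Fin q → Bool) → Fin q, ∫ ω, ((U h).indicator (1 : Ω → ℝ) ω -
        K * (V h).indicator (1 : Ω → ℝ) ω) ∂μ = μ.real (U h) - K * μ.real (V h) := by
      intro h
      rw [integral_sub (hintU h) ((hintV h).const_mul _), integral_const_mul,
        integral_indicator_one (hUm h), integral_indicator_one (hVm h)]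
    have e2 : ∀ i : Fin q, ∫ ω, (F i).indicator (1 : Ω → ℝ) ω ∂μ = μ.real (F i) := fun i =>
      integral_indicator_one (hFm i)
    have e3 : ∫ ω, (∑ h : (Fin q → Bool) → Fin q,
        ((U h).indicator (1 : Ω → ℝ) ω - K * (V h).indicator (1 : Ω → ℝ) ω)) ∂μ =
        ∑ h : (Fin q → Bool) → Fin q, (μ.real (U h) - K * μ.real (V h)) := by
      rw [integral_finsetSum Finset.univ fun h _ => iH h]
      exact Finset.sum_congr rfl fun h _ => e1 h
    have e4 : ∫ ω, (M * ((∑ i : Fin q, (F i).indicator (1 : Ω → ℝ) ω) / (2 * q)) -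
        K * (M * (1 / q))) ∂μ =
        M * ((∑ i : Fin q, μ.real (F i)) / (2 * q)) - K * (M * (1 / q)) := by
      rw [integral_sub iL (integrable_const _), integral_const_mul, integral_div,
        integral_finsetSum Finset.univ fun (i : Fin q) _ => hintF i, integral_const,
        probReal_univ, one_smul]
      simp only [e2]
    rw [e3, e4] at h1
    refine le_trans ?_ h1
    have h2 : (q : ℝ) * (3 * ε / 4) ≤ ∑ i : Fin q, μ.real (F i) := by
      have : ∑ _i : Fin q, (3 * ε / 4) ≤ ∑ i : Fin q, μ.real (F i) :=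
        Finset.sum_le_sum fun i _ => hFmeas i i.2
      rw [Finset.sum_const, Finset.card_univ, Fintype.card_fin, nsmul_eq_mul] at this
      exact this
    have h3 : 3 * ε / 8 ≤ (∑ i : Fin q, μ.real (F i)) / (2 * q) := by
      rw [le_div_iff₀ (by positivity)]
      linarith
    have h4 := mul_le_mul_of_nonneg_left h3 hMpos.le
    have h5 : K * (M * (1 / q)) = M * (K / q) := by ring
    rw [h5, mul_sub]
    linarith
  have hnon : (Finset.univ : Finset ((Fin q → Bool) → Fin q)).Nonempty :=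
    ⟨fun _ => 0, Finset.mem_univ _⟩
  obtain ⟨h, _, hh⟩ := Finset.exists_le_of_sum_le (f := fun _ => ε / 4)
    (g := fun h => μ.real (U h) - K * μ.real (V h)) hnon (by
      rw [Finset.sum_const, nsmul_eq_mul, card_total, ← hM]
      refine le_trans ?_ hsum
      refine mul_le_mul_of_nonneg_left ?_ hMpos.le
      have : K / q ≤ ε / 8 := hqK
      linarith)
  have hV0 : 0 ≤ μ.real (V h) := measureReal_nonneg
  refine ⟨CC B h, ?_, ?_⟩
  · rw [hVeq]
    have h1 : K * μ.real (V h) ≤ 1 := by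
      have h2 : μ.real (U h) ≤ 1 := measureReal_le_one
      have h3 : ε / 4 ≤ μ.real (U h) - K * μ.real (V h) := hh
      linarith
    rw [hK, one_div, inv_mul_le_iff₀ hη, mul_one] at h1
    exact h1
  · have h3 : ε / 4 ≤ μ.real (U h) - K * μ.real (V h) := hh
    have h4 := hUle h
    have h5 : 0 ≤ K * μ.real (V h) := by positivity
    linarith

end stage

/-! ### The theorem -/

section final

variable {A : Type u} [BooleanAlgebra A] {Ω : Type v} [MeasurableSpace Ω] {μ : Measure Ω}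
  {φ : ℕ → A → Set Ω} {ψ : A → Set Ω}

theorem pos_unif [IsProbabilityMeasure μ] (hpos : PosGrothendieck A) (hφ : ∀ n, IsHom μ (φ n))
    (hψ : IsHom μ ψ) (hc : AlgConv μ φ ψ) : UnifConv μ φ ψ := by
  classical
  intro ε hε
  by_contra hcon
  push Not at hcon
  have hst : ∀ t : ℕ, ∃ C : A, μ.real (ψ C) ≤ ε / 16 * (1 / 2) ^ t ∧
      ε / 4 ≤ μ.real (⋃ n ≥ t, φ n C) := fun t =>
    stage hφ hψ hc hε (fun N => by
      obtain ⟨n, hn, a, ha⟩ := hcon N
      exact ⟨n, hn, a, ha⟩) t (by positivity)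
  choose C hC1 hC2 using hst
  have hK := claimK hpos hφ hψ hc (fun i => partialSups C i) (partialSups C).monotone
  set V : ℕ → Set Ω := fun t => ⋃ n ≥ t, φ n (C t) with hV
  have hVm : ∀ t, MeasurableSet (V t) := fun t =>
    MeasurableSet.biUnion (to_countable _) fun n _ => (hφ n).meas _
  set L : Set Ω := ⋂ T, ⋃ t ≥ T, V t with hL
  -- the measure of `L`
  have hLge : ε / 4 ≤ μ.real L := by
    have hanti : Antitone fun T => ⋃ t ≥ T, V t := by
      intro S T hST ω hω
      simp only [mem_iUnion, exists_prop] at hω ⊢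
      obtain ⟨t, ht, h⟩ := hω
      exact ⟨t, hST.trans ht, h⟩
    have hm : ∀ T, MeasurableSet (⋃ t ≥ T, V t) := fun T =>
      MeasurableSet.biUnion (to_countable _) fun t _ => hVm t
    have h1 := tendsto_measure_iInter_atTop (μ := μ) (fun T => (hm T).nullMeasurableSet) hanti
      ⟨0, measure_ne_top _ _⟩
    have h2 := (ENNReal.tendsto_toReal (measure_ne_top μ (⋂ T, ⋃ t ≥ T, V t))).comp h1
    refine ge_of_tendsto h2 (Filter.Eventually.of_forall fun T => ?_)
    show ε / 4 ≤ μ.real (⋃ t ≥ T, V t)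
    refine (hC2 T).trans (measureReal_mono ?_ (measure_ne_top _ _))
    exact subset_biUnion_of_mem (u := fun t => V t) (le_refl T)
  -- `L` is contained in the union of the `ψ (C t)`
  have hsub : L ≤ᵐ[μ] (⋃ t, ψ (C t) : Set Ω) := by
    have h1 : ∀ᵐ ω ∂μ, ∀ n t, ω ∈ φ n (C t) → ω ∈ φ n (partialSups C t) := by
      rw [ae_all_iff]; intro n
      rw [ae_all_iff]; intro t
      exact (hφ n).ae_mono (le_partialSups C t)
    have h2 : ∀ᵐ ω ∂μ, ∀ i, ω ∈ ψ (partialSups C i) → ∃ t, ω ∈ ψ (C t) := by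
      rw [ae_all_iff]; intro i
      induction i with
      | zero =>
        refine Filter.Eventually.of_forall fun ω h => ⟨0, ?_⟩
        rwa [partialSups_zero] at h
      | succ i ih =>
        filter_upwards [ih, hψ.ae_sup (partialSups C i) (C (i + 1))] with ω h3 h4 h5
        rw [partialSups_add_one, h4] at h5
        rcases h5 with h5 | h5
        · exact h3 h5
        · exact ⟨_, h5⟩
    filter_upwards [h1, h2, hK] with ω h3 h4 h5 hω
    obtain ⟨i, hi⟩ := h5 fun N => by
      have h6 := mem_iInter.1 hω N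
      simp only [hV, mem_iUnion, exists_prop] at h6
      obtain ⟨t, ht, n, hn, h7⟩ := h6
      exact ⟨n, ht.trans hn, t, h3 n t h7⟩
    exact mem_iUnion.2 (h4 i hi)
  -- the measure of the union
  have hle : μ.real (⋃ t, ψ (C t)) ≤ ε / 8 := by
    have h1 : μ (⋃ t, ψ (C t)) ≤ ∑' t, μ (ψ (C t)) := measure_iUnion_le _
    have h2 : ∀ t, μ (ψ (C t)) ≤ ENNReal.ofReal (ε / 16 * (1 / 2) ^ t) := by
      intro t
      rw [← ENNReal.ofReal_toReal (measure_ne_top μ (ψ (C t)))]
      exact ENNReal.ofReal_le_ofReal (hC1 t)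
    have h3 : ∑' t, ENNReal.ofReal (ε / 16 * (1 / 2) ^ t) = ENNReal.ofReal (ε / 8) := by
      rw [← ENNReal.ofReal_tsum_of_nonneg (fun t => by positivity)
        (summable_geometric_two.mul_left _), tsum_mul_left, tsum_geometric_two]
      congr 1
      ring
    have h4 : μ (⋃ t, ψ (C t)) ≤ ENNReal.ofReal (ε / 8) :=
      h1.trans ((ENNReal.tsum_le_tsum h2).trans h3.le)
    exact ENNReal.toReal_le_of_le_ofReal (by positivity) h4
  have hfin : μ.real L ≤ μ.real (⋃ t, ψ (C t)) :=
    ENNReal.toReal_mono (measure_ne_top _ _) (measure_mono_ae hsub)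
  linarith

end final

/-- (1) If `A` has the Grothendieck property, then for every probability space every sequence of
homomorphisms from `A` to its measure algebra that converges pointwise algebraically to a
homomorphism converges uniformly. (2) The same for the positive Grothendieck property. -/
theorem result (A : Type u) [BooleanAlgebra A] (Ω : Type v) [MeasurableSpace Ω] (μ : Measure Ω)
    [IsProbabilityMeasure μ] :
    (Grothendieck A → ∀ (φ : ℕ → A → Set Ω) (ψ : A → Set Ω), (∀ n, IsHom μ (φ n)) → IsHom μ ψ →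
      AlgConv μ φ ψ → UnifConv μ φ ψ) ∧
    (PosGrothendieck A → ∀ (φ : ℕ → A → Set Ω) (ψ : A → Set Ω), (∀ n, IsHom μ (φ n)) →
      IsHom μ ψ → AlgConv μ φ ψ → UnifConv μ φ ψ) :=
  ⟨fun h _ _ h1 h2 h3 => pos_unif (fun f g _ => h f g fun _ => trivial) h1 h2 h3,
    fun h _ _ h1 h2 h3 => pos_unif h h1 h2 h3⟩

end Pool.Agent.Results.MP_955413_lc.UniformConvergence
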